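import Pool.Agent.H89.MT2.D
import Pool.Graph.R_seed8.H413R3.Part.Pt

set_option autoImplicit false

/-!
# Both parities of `p_t` occur more than `x ^ (7 / 8)` times, for almost all `t` (MP_a3366f_nt)

Let `p_t(n)` be the number of `t`-multipartitions of `n`, the coefficient of `q ^ n` in `1 / f_1 ^ t`.
Modulo 2, `p_t(n)` with `n < 2 ^ k` depends only on `t` modulo `2 ^ k`, so that it is defined for all
2-adic integers `t` (`parity`, first part of the theorem).

* For every sequence `w`, almost all odd 2-adic integers `t` have the property: in every residue class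
  `ρ` modulo `M`, `p_t(n)` is different modulo 2 from `w(n)` for more than `D x ^ (7 / 8)` of the
  `n ≤ x` in the class, for all `D` and all large `x`. With `w = 0` and `w = 1`: odd and even values.
* For every `M` the set of the exceptional odd `t` has Hausdorff dimension less than 1.
* For integers: for all but `C 2 ^ K / X ^ η` of the odd `t < 2 ^ K` the number of these `n ≤ x` is at
  least `D x ^ (7 / 8)` for all `x` with `X ≤ x < 2 ^ K`.

The starting file `AlmostAllExponents` has this with the exponent `3 / 4` (for all linear patterns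
`∑ c_i p_t(n + i)`), the starting file `SquareRootBound` the exponent `1 / 2` for the odd values and
all odd `t`.

Method. Let `t = t₁ + 2 ^ k t₂`, `t₁ < 2 ^ k`. The section of `1 / f_1 ^ t` at the class `r` modulo
`2 ^ k` is `U_r / f_1 ^ (t₂)`, `U_r` the section of `1 / f_1 ^ (t₁)`. By the norm argument of
`SquareRootBound` (integrality over `F_2[D]`, `D` the discriminant modulo 2, of the product of all
sections) no `U_r` vanishes and the mean of their orders is at most `2 ^ k / 3`, for EVERY odd `t₁`.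
So for `x` of size `4 ^ k` most of the `2 ^ k` sections are units up to a shift which is small
compared to the length of the section; and for each of these units `U` the engine of
`AlmostAllExponents` gives, for all but `C 2 ^ (-η k)` of the `t₂`, at least `D 2 ^ (3 k / 4)` places
where `U / f_1 ^ (t₂)` is different from the prescribed sequence. Together these are
`2 ^ k * 2 ^ (3 k / 4)`, the `7 / 8`-th power of `4 ^ k`.
-/

namespace Pool.Agent.Results.MP_a3366f_nt.AlmostAllSevenEighths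

open Finset MeasureTheory

/-- `p_t(n)`: the number of `t`-multipartitions of `n`, the coefficient of `q ^ n` in
`∏ 1 / (1 - q ^ i) ^ t` -/
def multipartitions (t n : ℕ) : ℕ :=
  ∑ x ∈ Finset.Nat.antidiagonalTuple t n, ∏ i, Fintype.card (Nat.Partition (x i))

/-- `p_t(n)` modulo 2 for a 2-adic integer `t`: it is `p_s(n)` modulo 2 for every natural number `s`
that is congruent to `t` modulo `2 ^ k > n` -/
noncomputable def parity (t : ℤ_[2]) (n : ℕ) : ZMod 2 := multipartitions (t.appr (n + 1)) n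

/-- the number of the `n ≤ x` in the residue class `ρ` modulo `M` with `a(n) ≠ w(n)` -/
def count (a : ℕ → ZMod 2) (M ρ : ℕ) (w : ℕ → ZMod 2) (x : ℕ) : ℕ :=
  #{n ∈ range (x + 1) | n % M = ρ % M ∧ a n ≠ w n}

private theorem coeff_P2 (t n : ℕ) :
    PowerSeries.coeff n (Pool.Agent.K7.H72.MT.P2 ^ t) = (multipartitions t n : ZMod 2) :=
  Pool.Agent.H413R3.Part.coeff_pow_eq (t := t) (n := n)

private theorem cnt_eq (M ρ : ℕ) (w : ℕ → ZMod 2) (t x : ℕ) :
    Pool.Agent.H89.MT2.cnt1 M ρ w t x =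
      count (fun n => (multipartitions t n : ZMod 2)) M ρ w x := by
  unfold Pool.Agent.H89.MT2.cnt1 count
  simp only [coeff_P2]

private theorem parity_eq (t : ℤ_[2]) (n : ℕ) : parity t n = Pool.Agent.K7.H72.MT.pz t n := by
  unfold parity Pool.Agent.K7.H72.MT.pz
  rw [coeff_P2]

private theorem cz_eq (M ρ : ℕ) (w : ℕ → ZMod 2) (t : ℤ_[2]) (x : ℕ) :
    Pool.Agent.H89.MT2.cz M ρ w t x = count (parity t) M ρ w x := by
  unfold Pool.Agent.H89.MT2.cz count
  simp only [parity_eq]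

private theorem appr_one {t : ℤ_[2]} (h : ‖t‖ = 1) : t.appr 1 = 1 := by
  have h1 := PadicInt.appr_lt t 1
  rw [pow_one] at h1
  by_contra hne
  have h0 : t.appr 1 = 0 := by omega
  have h2 := PadicInt.appr_spec (p := 2) 1 t
  rw [h0, Nat.cast_zero, sub_zero] at h2
  have h3 := (PadicInt.norm_le_pow_iff_mem_span_pow (p := 2) t 1).2 h2
  rw [h] at h3
  norm_num at h3

private theorem parity_wd (t : ℤ_[2]) (s n k : ℕ) (hn : n < 2 ^ k)
    (h : ‖t - s‖ ≤ (2 : ℝ) ^ (-(k : ℤ))) : parity t n = (multipartitions s n : ZMod 2) := by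
  have h2 : ((2 : ℕ) : ℝ) ^ (-(k : ℤ)) = (2 : ℝ) ^ (-(k : ℤ)) := by norm_num
  rw [← h2, PadicInt.norm_le_pow_iff_mem_span_pow] at h
  have h1 := PadicInt.zmod_congr_of_sub_mem_span (p := 2) k t _ _ (PadicInt.appr_spec (p := 2) k t) h
  rw [ZMod.natCast_eq_natCast_iff] at h1
  rw [parity_eq, Pool.Agent.K7.H72.MT.pz_eq t hn, ← coeff_P2]
  exact Pool.Agent.K7.H72.MT.coeff_congr' hn h1

private theorem ncard_eq {K : ℕ} (P : ℕ → Prop) [DecidablePred P] :
    Set.ncard {t : ℕ | t < 2 ^ K ∧ P t} = #{t ∈ range (2 ^ K) | P t} := by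
  rw [← Set.ncard_coe_finset]
  congr 1
  ext t
  simp

/-- **Main result.** -/
theorem result :
    -- the definition of `parity`
    (∀ (t : ℤ_[2]) (s n k : ℕ), n < 2 ^ k → ‖t - s‖ ≤ (2 : ℝ) ^ (-(k : ℤ)) →
      parity t n = (multipartitions s n : ZMod 2)) ∧
    -- almost all odd 2-adic `t`
    (∀ (w : ℕ → ZMod 2) [MeasurableSpace ℤ_[2]] [BorelSpace ℤ_[2]] (μ : Measure ℤ_[2])
      [IsProbabilityMeasure μ] [μ.IsAddLeftInvariant],
      ∀ᵐ t ∂μ, ‖t‖ = 1 → ∀ M : ℕ, 0 < M → ∀ ρ : ℕ,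
        Filter.Tendsto (fun x : ℕ => (count (parity t) M ρ w x : ℝ) / (x : ℝ) ^ (7 / 8 : ℝ))
          Filter.atTop Filter.atTop) ∧
    -- the dimension of the exceptional set
    (∀ M : ℕ, 0 < M → ∃ s : ℝ, s < 1 ∧ ∀ w : ℕ → ZMod 2,
      dimH {t : ℤ_[2] | ‖t‖ = 1 ∧ ∃ ρ : ℕ,
        ¬ Filter.Tendsto (fun x : ℕ => (count (parity t) M ρ w x : ℝ) / (x : ℝ) ^ (7 / 8 : ℝ))
          Filter.atTop Filter.atTop} ≤ ENNReal.ofReal s) ∧
    -- almost all odd integers `t`
    (∀ M : ℕ, 0 < M → ∃ η : ℝ, 0 < η ∧ ∀ (ρ : ℕ) (w : ℕ → ZMod 2) (D : ℝ), 0 < D →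
      ∃ C : ℝ, 0 < C ∧ ∀ K X : ℕ, 1 ≤ X →
        (Set.ncard {t : ℕ | t < 2 ^ K ∧ Odd t ∧ ∃ x : ℕ, X ≤ x ∧ x < 2 ^ K ∧
          (count (fun n => (multipartitions t n : ZMod 2)) M ρ w x : ℝ) <
            D * (x : ℝ) ^ (7 / 8 : ℝ)} : ℝ) ≤ C * 2 ^ K / (X : ℝ) ^ η) := by
  refine ⟨parity_wd, ?_, ?_, ?_⟩
  · intro w _ _ μ _ _
    filter_upwards [Pool.Agent.H89.MT2.ae_all w μ] with t ht h1 M hM ρ
    have h := ht (appr_one h1) M hM ρ
    simp only [cz_eq] at h
    exact h
  · intro M hM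
    obtain ⟨s, hs, h⟩ := Pool.Agent.H89.MT2.dim_all M hM
    refine ⟨s, hs, fun w => le_trans (dimH_mono ?_) (h w)⟩
    rintro t ⟨h1, ρ, h2⟩
    refine ⟨appr_one h1, ρ, ?_⟩
    simp only [cz_eq]
    exact h2
  · intro M hM
    obtain ⟨η, hη, h⟩ := Pool.Agent.H89.MT2.prog M hM
    refine ⟨η, hη, fun ρ w D hD => ?_⟩
    obtain ⟨C, hC, h1⟩ := h ρ w D hD
    refine ⟨C, hC, fun K X hX => ?_⟩
    have h2 := h1 K X hX
    classical
    simp only [cnt_eq] at h2
    refine le_trans (le_of_eq ?_) h2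
    rw [← Set.ncard_coe_finset]
    congr 2
    ext t
    simp only [Set.mem_ofPred_eq, coe_filter, mem_range, Nat.odd_iff]

end Pool.Agent.Results.MP_a3366f_nt.AlmostAllSevenEighths
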