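import Pool.Agent.H13.MO.Fin

set_option autoImplicit false

/-!
# Odd values of the number of `t`-multipartitions beyond `√x`, for odd `t` (MP_a3366f_nt)

Let `t` be odd and not of the form `24 (4 ^ i_1 + … + 4 ^ i_k) - 1` with distinct `i_j`
(`23, 95, 119, 383, …`; there are `O(√T)` such `t ≤ T`). For every `ε > 0`, all large `x`, all `b` with
`2 ^ b ≤ (log x) ^ (2 - ε)` and every residue `ρ`, at least `√x (log x) ^ (1 - ε) / 2 ^ b` of the
integers `n ≤ x` with `n ≡ ρ (mod 2 ^ b)` have an odd number of `t`-multipartitions.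

Method (extending the library modules `H307R2/OP`, `H413R3/OddT`, `H413R3/OddL`, which treat
`t ≡ 1 (mod 24)` and a part of `t ≡ 13 (mod 24)`). Let `3 m + t = 2 ^ e`, or `m + t / 3 = 4 ^ r` if
`3 ∣ t`. If the coefficient of `D ^ m` modulo 2 at `N` is odd, `D` the discriminant, then
`24 n - t = 3 N - 2 ^ e u ^ 2` (or `8 n - t / 3 = N - 4 ^ r u ^ 2`) for some `n`, `u` with `p_t(n)` odd.
The binary digits of `m` give such `N` as products of primes `≡ 3, 5 (mod 8)` (Nicolas-Serre). Three
cases: `t ≡ 1 (mod 3)`, `e` even, almost all primes `≡ 5`; `t ≡ 2 (mod 3)`, `e` odd, almost all primes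
`≡ 3 (mod 8)`; `3 ∣ t`, large numbers of primes in both classes. One counts the `N` and the number of
the `N` that lead to one `n` (a sieve, with the characters of `Q(√-δ)` or `Q(√-2δ)`, `δ` the squarefree
kernel of `24 n - t`; now `δ` is any odd squarefree number `≠ 1`). New: the kernels biased towards the
split primes are removed by a small inert prime in the right class modulo 8, found with a product of
four characters; at most two kernels are strongly biased at a time up to square products; the
kernel `δ = 1` (`24 n - t` a square) is excluded by a prime factor of `N` in the other class; for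
`t = 24 (4 ^ i_1 + … + 4 ^ i_k) - 1` there is no such prime factor, all the `N` that are available are
products of primes `≡ 3 (mod 8)`, which split in `Q(√-2)`.
-/

namespace Pool.Agent.Results.MP_a3366f_nt.BeyondSquareRoot

open Finset

/-- the number of `t`-multipartitions of `n`: the coefficient of `q ^ n` in `∏ 1 / (1 - q ^ i) ^ t` -/
def multipartitions (t n : ℕ) : ℕ :=
  ∑ y ∈ Finset.Nat.antidiagonalTuple t n, ∏ i, Fintype.card (Nat.Partition (y i))

private theorem exists_finset (w : ℕ) : (∀ i, w / 4 ^ i % 4 ≤ 1) →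
    ∃ s : Finset ℕ, w = ∑ i ∈ s, 4 ^ i := by
  induction w using Nat.strong_induction_on with
  | _ w ih =>
    intro h
    rcases Nat.eq_zero_or_pos w with h0 | h0
    · exact ⟨∅, by simp [h0]⟩
    · obtain ⟨s, hs⟩ := ih (w / 4) (by omega) (fun i => by
        have h1 := h (i + 1)
        rwa [pow_succ', ← Nat.div_div_eq_div_mul] at h1)
      have h1 := h 0
      rw [pow_zero, Nat.div_one] at h1
      have h2 : ∑ i ∈ s.image (fun i => i + 1), 4 ^ i = 4 * (w / 4) := by
        rw [sum_image (fun a _ b _ hab => by simpa using hab), hs, mul_sum]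
        refine sum_congr rfl fun i _ => by rw [pow_succ']
      rcases Nat.eq_zero_or_pos (w % 4) with h3 | h3
      · exact ⟨s.image (fun i => i + 1), by rw [h2]; omega⟩
      · refine ⟨insert 0 (s.image (fun i => i + 1)), ?_⟩
        rw [sum_insert (by simp), h2, pow_zero]
        omega

/-- **the number of `t`-multipartitions is odd more than `√x (log x) ^ (1 - ε)` times, in every class
modulo a small power of two** -/
theorem result (t : ℕ) (ht : Odd t) (hex : ∀ s : Finset ℕ, t + 1 ≠ 24 * ∑ i ∈ s, 4 ^ i)
    (ε : ℝ) (hε : 0 < ε) :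
    ∃ x0 : ℝ, ∀ x : ℕ, x0 ≤ x → ∀ b ρ : ℕ, (2 : ℝ) ^ b ≤ Real.log x ^ (2 - ε) →
      Real.sqrt x * Real.log x ^ (1 - ε) / 2 ^ b ≤
        (#{n ∈ range (x + 1) | n ≡ ρ [MOD 2 ^ b] ∧ Odd (multipartitions t n)} : ℝ) := by
  refine Pool.Agent.H13.MO.finalM t (Nat.odd_iff.1 ht) (fun h23 => ?_) ε hε
  by_contra hcon
  push Not at hcon
  obtain ⟨s, hs⟩ := exists_finset ((t + 1) / 24) (fun i => by
    have h1 := hcon (i + 1)
    have h2 : (t + 1) / 6 / 4 ^ (i + 1) = (t + 1) / 24 / 4 ^ i := by
      rw [pow_succ', ← Nat.div_div_eq_div_mul, Nat.div_div_eq_div_mul (t + 1) 6 4]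
    rw [h2] at h1
    omega)
  exact hex s (by omega)

end Pool.Agent.Results.MP_a3366f_nt.BeyondSquareRoot
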