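import Pool.Graph.R_seed8.H413R3.Part.Pt
import Pool.Agent.H48.GM.ParityRule2

/-!
# Odd and even values of `p_t` when a part of the binary digits of `t` is chosen

Let `p_t(n)` be the number of `t`-multipartitions of `n`, the coefficient of `q ^ n` in `1 / f_1 ^ t`. Modulo 2, the values
`p_t(n)`, `n < 2 ^ k`, depend only on the last `k` binary digits of `t`.

Two players, Compass and Adversary, write down the binary digits of `t`, beginning with the last one; Adversary decides before
each step who makes the move. There is ONE rule for Compass (a digit after every finite sequence of digits) such that, if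
`m` of the last `k` digits of `t` are the ones named by the rule, then at least about `(57 / 20) ^ (m / 2) = 2 ^ (0.7554 m)` of the
numbers `p_t(n)`, `n < 2 ^ k`, are odd, as many are even, and so on, in each residue class modulo a power of two: for each
sequence `w_i` of a given countable family (for instance all the sequences that can be computed, `w = 0` and `w = 1` being the
cases above) and every pattern `c ≠ 0`, as many of the sums `∑ c_l p_t(n + l)` are different from `w_i(n)` modulo 2. The same is
true with one rule for a countable family of series `V_j / f_1 ^ t`, for instance for all the quotients of `∏ f_j ^ (e_j)` by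
`f_1 ^ t`.

Hence, if Compass makes at least the share `κ` of the moves, there are `x ^ (0.7554 κ)` odd and even values below all `x = 2 ^ k`,
whatever Adversary does, which for `κ ≥ 2 / 3` is more than the bounds near `√x` that are known for every odd `t`. In particular,
if at most a third of the digits of `t` are prescribed, at any places and in any way, the other digits can be chosen so that
there are more than `x ^ (1 / 2 + 1 / 300)` odd and even values. The library (`AlmostAllExponents`) has `x ^ (3 / 4)` for almost all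
`t` and a bound for the number of exceptional `t < 2 ^ K`, from which one gets less than `x ^ (0.27)` for `κ = 2 / 3`.

Method. The total weight of the sections of `V / f_1 ^ t` (the weight `Φ` of the library) never decreases, and the product of
the total weights for the two digits is at least `57 / 20` times the square. Compass minimizes a sum of small negative powers
of the total weights over all series and residue classes (modulo `2 ^ b` they are added at the time `b`). The sequences `w_i` are
served in a small proportion of the moves of Compass: the two digits together give at least as many `n` with a value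
different from `w_i(n)` as there were nonzero coefficients before.
-/

set_option autoImplicit false

open Finset

namespace Pool.Agent.Results.MP_a3366f_nt.ParityGame

/-- the number of `t`-multipartitions of `n`: the coefficient of `q ^ n` in `∏ 1 / (1 - q ^ i) ^ t` -/
def multipartitions (t n : ℕ) : ℕ :=
  ∑ x ∈ Finset.Nat.antidiagonalTuple t n, ∏ i, Fintype.card (Nat.Partition (x i))

/-- `1 / f_1` modulo 2 -/
noncomputable def P : PowerSeries (ZMod 2) := PowerSeries.mk fun n => (Fintype.card (Nat.Partition n) : ZMod 2)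

/-- the binary digit of `t` at `2 ^ j` -/
def digit (t j : ℕ) : ℕ := t / 2 ^ j % 2

/-- the number of the last `k` binary digits of `t` that are the ones named by the rule `σ` after the lower digits -/
def moves (σ : List ℕ → ℕ) (t k : ℕ) : ℕ :=
  #{j ∈ range k | digit t j = σ ((List.range j).map (digit t))}

private theorem coeff_P (t n : ℕ) : PowerSeries.coeff n (P ^ t) = (multipartitions t n : ZMod 2) :=
  Pool.Agent.H413R3.Part.coeff_pow_eq (t := t) (n := n)

/-- **One rule for the digits of `t`.** Let `V_0, V_1, …` be power series modulo 2, `w_0, w_1, …` sequences modulo 2 and `0 < ε`.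
There is a rule `σ` such that: for all `i`, all classes `ρ` modulo `2 ^ b` and all patterns `c ≠ 0` there is `K` such that for
all odd `t` and all `k` at least `(57 / 20) ^ ((1 - ε) m / 2) / K - 1` of the `n < 2 ^ k` in the class satisfy
`∑ c_l p_t(n + l) ≠ w_i(n)`, where `m` is the number of the last `k` digits of `t` that follow the rule. The same for the
coefficients of `V_j / f_1 ^ t`, for all `t` for which they are not all even in the class. -/
theorem result (V : ℕ → PowerSeries (ZMod 2)) (w : ℕ → ℕ → ZMod 2) (ε : ℝ) (hε : 0 < ε) :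
    ∃ σ : List ℕ → ℕ, (∀ u, σ u < 2) ∧
      (∀ (i b ρ L : ℕ) (c : Fin (L + 1) → ZMod 2), c ≠ 0 → ∃ K : ℝ, ∀ t k : ℕ, Odd t →
        (57 / 20 : ℝ) ^ ((1 - ε) * moves σ t k / 2) ≤
          K * (1 + #{n ∈ range (2 ^ k) | n ≡ ρ [MOD 2 ^ b] ∧
            ∑ l : Fin (L + 1), c l * (multipartitions t (n + l) : ZMod 2) ≠ w i n})) ∧
      (∀ i j b ρ : ℕ, ∃ K : ℝ, ∀ t k : ℕ,
        (∃ n, n ≡ ρ [MOD 2 ^ b] ∧ PowerSeries.coeff n (V j * P ^ t) ≠ 0) →
        (57 / 20 : ℝ) ^ ((1 - ε) * moves σ t k / 2) ≤
          K * (1 + #{n ∈ range (2 ^ k) | n ≡ ρ [MOD 2 ^ b] ∧ PowerSeries.coeff n (V j * P ^ t) ≠ w i n})) := by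
  obtain ⟨σ, hσ, h⟩ := Pool.Agent.H48.GM.PR.main Pool.Agent.K7.H72.MT.isP_P2
    (ι := ℕ ⊕ (Σ L : ℕ, Fin (L + 1) → ZMod 2)) (κ := ℕ × ℕ)
    (fun x => x.elim V fun y => Pool.Agent.R836.PP.CC y.2) (fun x n => w x.1 (n - x.2)) ε hε
  refine ⟨σ, hσ, fun i b ρ L c hc => ?_, fun i j b ρ => ?_⟩
  · obtain ⟨K, hK0, hK⟩ := h (i, L) (Sum.inr ⟨L, c⟩) b ((ρ + L) % 2 ^ b) (Nat.mod_lt _ (by positivity))
    refine ⟨K * (L + 1), fun t k ht => ?_⟩
    have hne : ∃ n, n % 2 ^ b = (ρ + L) % 2 ^ b ∧
        PowerSeries.coeff n (Pool.Agent.R836.PP.CC c * Pool.Agent.K7.H72.MT.P2 ^ t) ≠ 0 := by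
      have hβ : (ρ + L) % 2 ^ b < 2 ^ b := Nat.mod_lt _ (by positivity)
      have h1 : ∃ n, PowerSeries.coeff n (Pool.Agent.K7.H72.MT.node Pool.Agent.K7.H72.MT.P2 b ((ρ + L) % 2 ^ b) t
          (Pool.Agent.R836.PP.CC c)) ≠ 0 := by
        rcases Nat.eq_zero_or_pos b with rfl | hb
        · exact Pool.Agent.K7.H72.MT.CC_ne c hc
        · rw [← Pool.Agent.K7.H72.MT.node_mod]
          refine Pool.Agent.K7.H72.MT.node_ne c hc hβ ?_ (Nat.mod_lt _ (by positivity))
          rw [Nat.mod_mod_of_dvd _ (dvd_pow_self 2 (by omega))]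
          exact Nat.odd_iff.1 ht
      set U := Pool.Agent.K7.H72.MT.node Pool.Agent.K7.H72.MT.P2 b ((ρ + L) % 2 ^ b) t
          (Pool.Agent.R836.PP.CC c) with hU
      obtain ⟨h2, h3⟩ := Pool.Agent.H48.GM.PR.ord_spec U
      refine ⟨(ρ + L) % 2 ^ b + 2 ^ b * Pool.Agent.H48.GM.PR.ord U, ?_, ?_⟩
      · rw [Nat.add_mul_mod_self_left, Nat.mod_mod]
      · rw [Pool.Agent.K7.H72.MT.coeff_node _ _ _ _ _ _ hβ, ← hU,
          Pool.Agent.K7.H72.MT.coeff_low h2
            (Pool.Agent.K7.H72.MT.coeff_zero_pow Pool.Agent.K7.H72.MT.isP_P2.zero _)]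
        have h4 := h3 h1
        unfold Pool.Agent.K7.H72.MT.unsh at h4
        rw [PowerSeries.coeff_mk, zero_add] at h4
        rw [h4]
        exact one_ne_zero
    have h1 := hK t k hne
    have h2 : Pool.Agent.H48.GM.PR.count (Pool.Agent.R836.PP.CC c * Pool.Agent.K7.H72.MT.P2 ^ t) b ((ρ + L) % 2 ^ b)
        (fun n => w i (n - L)) k ≤ L + #{n ∈ range (2 ^ k) | n ≡ ρ [MOD 2 ^ b] ∧
            ∑ l : Fin (L + 1), c l * (multipartitions t (n + l) : ZMod 2) ≠ w i n} := by
      unfold Pool.Agent.H48.GM.PR.count
      have h3 : {n ∈ range (2 ^ k) | n % 2 ^ b = (ρ + L) % 2 ^ b ∧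
          PowerSeries.coeff n (Pool.Agent.R836.PP.CC c * Pool.Agent.K7.H72.MT.P2 ^ t) ≠ w i (n - L)} ⊆
          range L ∪ ({n ∈ range (2 ^ k) | n ≡ ρ [MOD 2 ^ b] ∧
            ∑ l : Fin (L + 1), c l * (multipartitions t (n + l) : ZMod 2) ≠ w i n}).image fun n => n + L := by
        intro n hn
        obtain ⟨hn1, hn2, hn3⟩ := mem_filter.1 hn
        rw [mem_range] at hn1
        rw [mem_union]
        rcases Nat.lt_or_ge n L with h4 | h4
        · exact Or.inl (mem_range.2 h4)
        · right
          rw [mem_image]
          refine ⟨n - L, ?_, by omega⟩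
          rw [mem_filter, mem_range]
          refine ⟨by omega, ?_, ?_⟩
          · have h5 : n - L + L ≡ ρ + L [MOD 2 ^ b] := by
              rw [Nat.sub_add_cancel h4]
              exact hn2
            exact Nat.ModEq.add_right_cancel' L h5
          · intro h6
            apply hn3
            rw [← h6]
            have h7 := Pool.Agent.R836.PP.coeff_CC c (Pool.Agent.K7.H72.MT.P2 ^ t) (n - L)
            rw [Nat.sub_add_cancel h4] at h7
            rw [h7]
            unfold Pool.Agent.R836.PP.pat
            refine sum_congr rfl fun l _ => ?_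
            congr 1
            exact coeff_P t _
      have h5 := (card_le_card h3).trans (card_union_le _ _)
      have h6 := card_image_le (s := {n ∈ range (2 ^ k) | n ≡ ρ [MOD 2 ^ b] ∧
            ∑ l : Fin (L + 1), c l * (multipartitions t (n + l) : ZMod 2) ≠ w i n}) (f := fun n => n + L)
      rw [card_range] at h5
      exact h5.trans (Nat.add_le_add_left h6 _)
    refine h1.trans ?_
    rw [mul_assoc]
    refine mul_le_mul_of_nonneg_left ?_ hK0.le
    set x := #{n ∈ range (2 ^ k) | n ≡ ρ [MOD 2 ^ b] ∧
            ∑ l : Fin (L + 1), c l * (multipartitions t (n + l) : ZMod 2) ≠ w i n} with hx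
    calc (1 : ℝ) + (Pool.Agent.H48.GM.PR.count (Pool.Agent.R836.PP.CC c * Pool.Agent.K7.H72.MT.P2 ^ t) b
          ((ρ + L) % 2 ^ b) (fun n => w i (n - L)) k : ℝ) ≤ 1 + (L + x : ℕ) := by
          gcongr
      _ ≤ ((L : ℝ) + 1) * (1 + x) := by
          push_cast
          have : (0 : ℝ) ≤ L * x := by positivity
          nlinarith
  · obtain ⟨K, hK0, hK⟩ := h (i, 0) (Sum.inl j) b (ρ % 2 ^ b) (Nat.mod_lt _ (by positivity))
    refine ⟨K, fun t k ht => ?_⟩
    exact hK t k ht

end Pool.Agent.Results.MP_a3366f_nt.ParityGame
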