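import Pool.Agent.H89.TH.E
import Pool.Graph.R_seed8.Y627.PT.R2

set_option autoImplicit false

/-!
# Multipartitions modulo 2 after a random change in `O(log x log log x)` places (MP_a3366f_nt)

`∑ p_t(n) q^n = f_1^(-t)` is the generating function of the `t`-multipartitions. Let `thin` be the explicit set
below, with at most `7 (log₂ x + 1) (log₂ (log₂ x + 1) + 1)` elements up to `x`, and for `d ∈ thin` let `β_d` be any
power series over `F_2` of the form `1 + q^d + …` in which all the exponents are divisible by the powers of two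
that divide `d`: for instance `1 - q^d` (the part `d` is forbidden in one of the components), `1 / (1 - q^d)`
(the part `d` has one more colour), `f_d` or `1 / f_d`. Let `R` be a random set, the membership of the elements of
`thin` being decided by independent fair coins. Almost surely the coefficients of
`f_1^(-t) ∏_{d ∈ thin ∩ R} β_d`, `t = 1, …, K`, are jointly normal modulo 2, for all `K`, along any given increasing
sequence. The same holds for any series `G_1, …, G_m` over `F_2` that are linearly independent over `F_2[q]`.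

Method. The character of a pattern at `n` is the sign of a coefficient of `Z ∏ β_d`, with a fixed `Z ≠ 0`. Its mean
over the coins is a mean over sets of `d ≤ p`. If the lowest term of `Z` is at `p - h`, the coins of level `k`
(`d` an odd multiple of `2 ^ k`) move the lowest term; a counting argument in the quotient by the series in
`q^(2^(k+1))` shows that the mean is small or one can pass to level `k + 1`. This gives the bound
`8800 / (log₂ p + 1)^2` for the means and for the correlations, and a strong law for variables with logarithmically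
decaying correlations gives the theorem.
-/

namespace Pool.Agent.Results.MP_a3366f_nt.ThinRandomFactors

open MeasureTheory ProbabilityTheory Filter Topology PowerSeries Pool.Agent.R978.PD

/-- the number of `t`-multipartitions of `n` -/
def multipartitions (t n : ℕ) : ℕ :=
  ∑ x ∈ Finset.Nat.antidiagonalTuple t n, ∏ i, Fintype.card (Nat.Partition (x i))

/-- the thin set: the numbers `2 ^ k j` with `j` odd, and `j < 6 (log₂ (k + 1) + 1)` or
`j = 2 ^ 2 ^ i + 1, 2 ^ 2 ^ i + 3, 2 ^ 2 ^ i + 5, 2 ^ 2 ^ i + 7` for some `i ≥ 2` -/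
def thin : Set ℕ := {d | ∃ k j : ℕ, Odd j ∧ d = 2 ^ k * j ∧
  (j < 6 * (Nat.log 2 (k + 1) + 1) ∨ ∃ i u : ℕ, 2 ≤ i ∧ u < 4 ∧ j = 2 ^ 2 ^ i + 2 * u + 1)}

/-- `B = 1 + q ^ d + …`, all the exponents being divisible by the powers of two that divide `d` -/
def IsFactor (d : ℕ) (B : PowerSeries (ZMod 2)) : Prop :=
  coeff 0 B = 1 ∧ (∀ n, 0 < n → n < d → coeff n B = 0) ∧ coeff d B = 1 ∧
    ∀ k n, 2 ^ k ∣ d → coeff n B ≠ 0 → 2 ^ k ∣ n

open Classical in
/-- the coefficient of `q ^ n` in `G ∏_{d ∈ D} β d` (the factors with `d > n` have no influence on it) -/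
noncomputable def changed (β : ℕ → PowerSeries (ZMod 2)) (D : Set ℕ) (G : PowerSeries (ZMod 2)) (n : ℕ) :
    ZMod 2 :=
  coeff n (G * ∏ d ∈ (Finset.range (n + 1)).filter (· ∈ D), β d)

open Classical in
/-- indicator of a set, as a Bool sequence -/
noncomputable def ind (R : Set ℕ) (a : ℕ) : Bool := decide (a ∈ R)

theorem ind_iff (R : Set ℕ) (a : ℕ) : ind R a = true ↔ a ∈ R := by
  simp [ind]

lemma thin_pos {d : ℕ} (h : d ∈ thin) : 0 < d := by
  obtain ⟨k, j, hj, rfl, -⟩ := h
  have := hj.pos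
  positivity

lemma changed_eq (β : ℕ → PowerSeries (ZMod 2)) (R : Set ℕ) (G : PowerSeries (ZMod 2)) (n : ℕ) :
    changed β (thin ∩ R) G n = coeff n (Pool.Agent.H89.TH.pert β G (ind R)) := by
  classical
  unfold changed Pool.Agent.H89.TH.pert
  rw [coeff_mk]
  have h : (Finset.range (n + 1)).filter (fun d => d ∈ thin ∩ R) =
      (Pool.Agent.H89.TH.AA Pool.Agent.H89.TH.thin n 0).filter (fun d => ind R d = true) := by
    ext d
    rw [Finset.mem_filter, Finset.mem_filter, Pool.Agent.H89.TH.mem_AA, Finset.mem_range, ind_iff]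
    constructor
    · rintro ⟨h1, h2, h3⟩
      exact ⟨⟨by omega, thin_pos h2, h2, by simp⟩, h3⟩
    · rintro ⟨⟨h1, h2, h3, h4⟩, h5⟩
      exact ⟨by omega, h3, h5⟩
  have h2 : ∀ inst : DecidablePred (fun d => d ∈ thin ∩ R),
      @Finset.filter _ (fun d => d ∈ thin ∩ R) inst (Finset.range (n + 1)) =
      (Pool.Agent.H89.TH.AA Pool.Agent.H89.TH.thin n 0).filter (fun d => ind R d = true) := by
    intro inst
    rw [← h]
    congr
  rw [h2]

lemma comb_ne {m : ℕ} {G : Fin m → PowerSeries (ZMod 2)}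
    (hG : ∀ A : Fin m → Polynomial (ZMod 2), ∑ τ, (A τ : PowerSeries (ZMod 2)) * G τ = 0 → A = 0)
    {L : ℕ} {T : Finset (Fin m × ℕ)} (hT : T ⊆ Finset.univ ×ˢ Finset.range L) (hne : T.Nonempty) :
    Pool.Agent.H89.TH.comb G T L ≠ 0 := by
  classical
  intro h0
  set A : Fin m → Polynomial (ZMod 2) := fun τ =>
    ∑ y ∈ T.filter (fun y => y.1 = τ), (Polynomial.X : Polynomial (ZMod 2)) ^ (L - y.2) with hA
  have h1 : ∑ τ, (A τ : PowerSeries (ZMod 2)) * G τ = Pool.Agent.H89.TH.comb G T L := by
    unfold Pool.Agent.H89.TH.comb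
    rw [← Finset.sum_fiberwise T (fun y => y.1)]
    refine Finset.sum_congr rfl fun τ _ => ?_
    have h2 : ((A τ : Polynomial (ZMod 2)) : PowerSeries (ZMod 2)) =
        ∑ y ∈ T.filter (fun y => y.1 = τ), (X : PowerSeries (ZMod 2)) ^ (L - y.2) := by
      have h3 := map_sum (Polynomial.coeToPowerSeries.ringHom (R := ZMod 2))
        (fun y : Fin m × ℕ => (Polynomial.X : Polynomial (ZMod 2)) ^ (L - y.2)) (T.filter (fun y => y.1 = τ))
      simp only [Polynomial.coeToPowerSeries.ringHom_apply, Polynomial.coe_pow, Polynomial.coe_X] at h3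
      rw [hA]
      exact h3
    rw [h2, Finset.sum_mul]
    refine Finset.sum_congr rfl fun y hy => ?_
    rw [(Finset.mem_filter.1 hy).2]
  obtain ⟨z, hz⟩ := hne
  have h4 := congrFun (hG A (h1.trans h0)) z.1
  have h5 : Polynomial.coeff (A z.1) (L - z.2) = 1 := by
    rw [hA]
    simp only [Polynomial.finsetSum_coeff, Polynomial.coeff_X_pow]
    rw [Finset.sum_eq_single z]
    · rw [if_pos rfl]
    · intro y hy hyz
      rw [Finset.mem_filter] at hy
      rw [if_neg]
      intro h
      apply hyz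
      have h6 := hT hy.1
      have h7 := hT hz
      rw [Finset.mem_product, Finset.mem_range] at h6 h7
      exact Prod.ext hy.2 (by omega)
    · intro h
      apply absurd _ h
      rw [Finset.mem_filter]
      exact ⟨hz, rfl⟩
  rw [h4] at h5
  simp at h5

theorem main {Ω : Type} [MeasurableSpace Ω] {P : Measure Ω} [IsProbabilityMeasure P]
    (R : Ω → Set ℕ) (hm : ∀ a : ℕ, MeasurableSet {ω | a ∈ R ω})
    (hi : iIndepSet (fun a : ℕ => {ω | a ∈ R ω}) P)
    (hR : ∀ d ∈ thin, P.real {ω | d ∈ R ω} = 1 / 2)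
    {β : ℕ → PowerSeries (ZMod 2)} (hβ : ∀ d ∈ thin, IsFactor d (β d))
    {m : ℕ} (G : Fin m → PowerSeries (ZMod 2))
    (hG : ∀ A : Fin m → Polynomial (ZMod 2), ∑ τ, (A τ : PowerSeries (ZMod 2)) * G τ = 0 → A = 0)
    {s : ℕ → ℕ} (hs : StrictMono s) :
    ∀ᵐ ω ∂P, ∀ (L : ℕ) (w : Fin m → Fin L → ZMod 2),
      Tendsto (fun x : ℕ => (((Finset.range x).filter fun k => ∀ (τ : Fin m) (i : Fin L),
        changed β (thin ∩ R ω) (G τ) (s k + i) = w τ i).card : ℝ) / x) atTop (𝓝 ((1 / 2) ^ (m * L))) := by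
  classical
  have hset : ∀ a : ℕ, {ω | ind (R ω) a = true} = {ω | a ∈ R ω} := by
    intro a
    ext ω
    exact ind_iff _ _
  have hm' : ∀ a : ℕ, Measurable fun ω => ind (R ω) a := by
    intro a
    refine measurable_to_bool ?_
    have : (fun ω => ind (R ω) a) ⁻¹' {true} = {ω | a ∈ R ω} := by
      rw [← hset a]
      rfl
    rw [this]
    exact hm a
  have hi' : iIndepFun (fun a ω => ind (R ω) a) P := by
    have h1 := hi.iIndepFun_indicator (β := ℕ) (m := ⊤)
    have h2 := h1.comp (fun _ (x : ℕ) => decide (x = 1)) (fun _ => measurable_from_top)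
    refine h2.congr fun a => ?_
    refine Eventually.of_forall fun ω => ?_
    by_cases h : a ∈ R ω
    · simp [ind, h, Set.indicator]
    · simp [ind, h, Set.indicator]
  have hh : ∀ a ∈ Pool.Agent.H89.TH.thin, rho P (fun a ω => ind (R ω) a) a = 1 / 2 := by
    intro a ha
    unfold rho
    rw [hset a]
    exact hR a ha
  have hae : ∀ᵐ ω ∂P, ∀ (L : ℕ) (T : Finset (Fin m × ℕ)), T ⊆ Finset.univ ×ˢ Finset.range L → T.Nonempty →
      Tendsto (fun x : ℕ => (∑ k ∈ Finset.range x,
        ∏ y ∈ T, chi (coeff (s k + y.2) (Pool.Agent.H89.TH.pert β (G y.1) (ind (R ω))))) / (x : ℝ))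
        atTop (𝓝 0) := by
    rw [ae_all_iff]
    intro L
    rw [ae_all_iff]
    intro T
    by_cases hT : T ⊆ Finset.univ ×ˢ Finset.range L
    · by_cases hne : T.Nonempty
      · have h1 := Pool.Agent.H89.TH.char_ae hm' hi' hh (β := β) (fun d hd => hβ d hd) G hs T (L := L)
          (fun y hy => (Finset.mem_range.1 (Finset.mem_product.1 (hT hy)).2).le)
          (comb_ne hG hT hne)
        filter_upwards [h1] with ω hω _ _
        exact hω
      · exact Eventually.of_forall fun ω _ h => absurd h hne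
    · exact Eventually.of_forall fun ω h => absurd h hT
  filter_upwards [hae] with ω hω L w
  have h2 := Pool.Agent.H89.TH.freq_of_chars (Finset.univ ×ˢ Finset.range L : Finset (Fin m × ℕ))
    (fun k y => coeff (s k + y.2) (Pool.Agent.H89.TH.pert β (G y.1) (ind (R ω))))
    (fun T hT hne => hω L T hT hne)
    (fun y => if h : y.2 < L then w y.1 ⟨y.2, h⟩ else 0)
  rw [Finset.card_product, Finset.card_univ, Fintype.card_fin, Finset.card_range] at h2
  refine h2.congr fun x => ?_
  have hx : ∀ (p q : ℕ → Prop) [DecidablePred p] [DecidablePred q], (∀ k, p k ↔ q k) →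
      (((Finset.range x).filter p).card : ℝ) / x = (((Finset.range x).filter q).card : ℝ) / x := by
    intro p q _ _ hpq
    rw [Finset.filter_congr fun k _ => hpq k]
  refine hx _ _ fun k => ?_
  constructor
  · intro h τ i
    have h3 := h (τ, (i : ℕ)) (by simp)
    rw [dif_pos i.2] at h3
    rw [changed_eq]
    exact h3
  · intro h y hy
    rw [Finset.mem_product, Finset.mem_range] at hy
    rw [dif_pos hy.2, ← changed_eq]
    exact h y.1 ⟨y.2, hy.2⟩

/-- the generating functions of the `t`-multipartitions, `1 ≤ t ≤ K`, are linearly independent modulo 2 over the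
polynomials -/
theorem indep (K : ℕ) (A : Fin K → Polynomial (ZMod 2))
    (h : ∑ τ, (A τ : PowerSeries (ZMod 2)) *
      PowerSeries.mk (fun n => ((multipartitions ((τ : ℕ) + 1) n : ℕ) : ZMod 2)) = 0) : A = 0 := by
  classical
  by_contra hA
  obtain ⟨C, hC⟩ := Pool.Agent.Y627.PT.joint K
  set L := Finset.univ.sup fun τ => (A τ).natDegree with hL
  have hdeg : ∀ τ, (A τ).natDegree ≤ L := fun τ => Finset.le_sup (f := fun τ => (A τ).natDegree) (Finset.mem_univ τ)
  have hc : (fun (τ : Fin K) (i : Fin (L + 1)) => (A τ).coeff (L - i)) ≠ 0 := by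
    intro h0
    apply hA
    funext τ
    ext n
    rcases Nat.lt_or_ge L n with hn | hn
    · rw [Polynomial.coeff_eq_zero_of_natDegree_lt (lt_of_le_of_lt (hdeg τ) hn)]
      simp
    · have h1 := congrFun (congrFun h0 τ) ⟨L - n, by omega⟩
      simp only [Pi.zero_apply] at h1
      rw [show L - (L - n) = n by omega] at h1
      rw [h1]
      simp
  obtain ⟨n, _, _, h3⟩ := hC L _ hc 1 0
  have h4 := congrArg (coeff (n + L)) h
  rw [map_sum, map_zero] at h4
  have h5 : ∀ τ : Fin K, coeff (n + L) ((A τ : PowerSeries (ZMod 2)) *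
      PowerSeries.mk (fun n => ((multipartitions ((τ : ℕ) + 1) n : ℕ) : ZMod 2))) =
      ∑ i : Fin (L + 1), (A τ).coeff (L - i) * coeff (n + i) (Pool.Agent.TH693.PP.P ^ ((τ : ℕ) + 1)) := by
    intro τ
    rw [coeff_mul, Finset.Nat.sum_antidiagonal_eq_sum_range_succ_mk]
    have h6 : ∑ k ∈ Finset.range (n + L).succ, (coeff k (A τ : PowerSeries (ZMod 2))) *
        coeff (n + L - k) (PowerSeries.mk (fun n => ((multipartitions ((τ : ℕ) + 1) n : ℕ) : ZMod 2))) =
        ∑ k ∈ Finset.range (L + 1), (A τ).coeff k *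
          coeff (n + L - k) (Pool.Agent.TH693.PP.P ^ ((τ : ℕ) + 1)) := by
      symm
      refine Finset.sum_subset_zero_on_sdiff (Finset.range_subset_range.2 (by omega)) ?_ ?_
      · intro k hk
        rw [Finset.mem_sdiff, Finset.mem_range, Finset.mem_range] at hk
        rw [Polynomial.coeff_coe, Polynomial.coeff_eq_zero_of_natDegree_lt (by have := hdeg τ; omega), zero_mul]
      · intro k _
        rw [Polynomial.coeff_coe, coeff_mk, Pool.Agent.TH693.QQ.coeff_P_pow]
        rfl
    rw [h6, ← Fin.sum_univ_eq_sum_range (fun k => (A τ).coeff k *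
          coeff (n + L - k) (Pool.Agent.TH693.PP.P ^ ((τ : ℕ) + 1)))]
    rw [← Equiv.sum_comp Fin.revPerm]
    refine Finset.sum_congr rfl fun i _ => ?_
    have hi := i.2
    rw [Fin.revPerm_apply, Fin.val_rev]
    congr 2
    · omega
    · congr 1
      omega
  rw [Finset.sum_congr rfl fun τ _ => h5 τ] at h4
  rw [h4] at h3
  exact zero_ne_one h3

theorem result :
    (∀ x : ℕ, (thin ∩ Set.Icc 1 x).ncard ≤ 7 * (Nat.log 2 x + 1) * (Nat.log 2 (Nat.log 2 x + 1) + 1)) ∧
    (∀ d : ℕ, 0 < d → ∀ F : PowerSeries (ZMod 2), coeff 0 F = 1 → coeff 1 F = 1 →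
      IsFactor d (PowerSeries.mk fun n => if d ∣ n then coeff (n / d) F else 0)) ∧
    ∀ (Ω : Type) [MeasurableSpace Ω] (P : Measure Ω) [IsProbabilityMeasure P] (R : Ω → Set ℕ),
      (∀ a : ℕ, MeasurableSet {ω | a ∈ R ω}) → iIndepSet (fun a : ℕ => {ω | a ∈ R ω}) P →
      (∀ d ∈ thin, P.real {ω | d ∈ R ω} = 1 / 2) →
      ∀ β : ℕ → PowerSeries (ZMod 2), (∀ d ∈ thin, IsFactor d (β d)) →
      ∀ s : ℕ → ℕ, StrictMono s →
        (∀ᵐ ω ∂P, ∀ (K L : ℕ) (w : Fin K → Fin L → ZMod 2),
          Tendsto (fun x : ℕ => (((Finset.range x).filter fun k => ∀ (τ : Fin K) (i : Fin L),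
            changed β (thin ∩ R ω)
              (PowerSeries.mk fun n => ((multipartitions ((τ : ℕ) + 1) n : ℕ) : ZMod 2)) (s k + i) =
                w τ i).card : ℝ) / x) atTop (𝓝 ((1 / 2) ^ (K * L)))) ∧
        ∀ (m : ℕ) (G : Fin m → PowerSeries (ZMod 2)),
          (∀ A : Fin m → Polynomial (ZMod 2), ∑ τ, (A τ : PowerSeries (ZMod 2)) * G τ = 0 → A = 0) →
          ∀ᵐ ω ∂P, ∀ (L : ℕ) (w : Fin m → Fin L → ZMod 2),
            Tendsto (fun x : ℕ => (((Finset.range x).filter fun k => ∀ (τ : Fin m) (i : Fin L),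
              changed β (thin ∩ R ω) (G τ) (s k + i) = w τ i).card : ℝ) / x) atTop
              (𝓝 ((1 / 2) ^ (m * L))) := by
  refine ⟨Pool.Agent.H89.TH.thin_card, ?_, ?_⟩
  · intro d hd F h0 h1
    refine ⟨?_, ?_, ?_, ?_⟩
    · rw [coeff_mk, if_pos (dvd_zero d), Nat.zero_div, h0]
    · intro n hn hnd
      rw [coeff_mk, if_neg (Nat.not_dvd_of_pos_of_lt hn hnd)]
    · rw [coeff_mk, if_pos dvd_rfl, Nat.div_self hd, h1]
    · intro k n hk hn
      rw [coeff_mk] at hn
      by_cases h : d ∣ n
      · exact hk.trans h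
      · rw [if_neg h] at hn
        exact absurd rfl hn
  · intro Ω _ P _ R hm hi hR β hβ s hs
    refine ⟨?_, fun m G hG => main R hm hi hR hβ G hG hs⟩
    rw [ae_all_iff]
    intro K
    exact main R hm hi hR hβ (fun τ : Fin K =>
      PowerSeries.mk fun n => ((multipartitions ((τ : ℕ) + 1) n : ℕ) : ZMod 2)) (indep K) hs

end Pool.Agent.Results.MP_a3366f_nt.ThinRandomFactors
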